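import Pool.Agent.H77.BC.Targets

/-!
# Row EBB: all vectors of type 0 or 1
-/

set_option autoImplicit false

open Set Matrix

namespace Pool.Agent.H37.BCP

open Pool.Agent.H77.BC

variable {K : Type} [Field K] {n : ℕ}

/-- The span of two vectors. -/
def Pl (a b : Fin n → K) : Submodule K (Fin n → K) := Submodule.span K {a, b}

lemma mem_Pl {a b x : Fin n → K} : x ∈ Pl a b ↔ ∃ s t : K, s • a + t • b = x :=
  Submodule.mem_span_pair

lemma left_mem (a b : Fin n → K) : a ∈ Pl a b := Submodule.subset_span (by simp)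

lemma right_mem (a b : Fin n → K) : b ∈ Pl a b := Submodule.subset_span (by simp)

lemma Pl_le {a b : Fin n → K} {W : Submodule K (Fin n → K)} (ha : a ∈ W) (hb : b ∈ W) :
    Pl a b ≤ W := by
  unfold Pl
  rw [Submodule.span_le]
  rintro x (rfl | rfl)
  · exact ha
  · exact hb

/-- Duality. -/
lemma dual_mem (W : Submodule K (Fin n → K)) (c : Fin n → K)
    (h : ∀ ψ : Fin n → K, (∀ x ∈ W, ψ ⬝ᵥ x = 0) → ψ ⬝ᵥ c = 0) : c ∈ W := by
  by_contra hc
  obtain ⟨f, hf, hfW⟩ := Submodule.exists_le_ker_of_notMem hc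
  have key : ∀ x : Fin n → K, (fun i => f (Pi.single i 1)) ⬝ᵥ x = f x := by
    intro x
    have h1 : x = ∑ i, x i • (Pi.single i (1 : K) : Fin n → K) := by
      funext j
      simp [Finset.sum_apply, Pi.single_apply]
    conv_rhs => rw [h1]
    rw [map_sum]
    unfold dotProduct
    refine Finset.sum_congr rfl fun i _ => ?_
    rw [map_smul, smul_eq_mul, mul_comm]
  apply hf
  rw [← key]
  apply h
  intro x hx
  rw [key]
  exact hfW hx

lemma finrank_Pl_le (a b : Fin n → K) : Module.finrank K (Pl a b) ≤ 2 := by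
  classical
  have h := finrank_span_finset_le_card (R := K) ({a, b} : Finset (Fin n → K))
  rw [Set.finrank, Finset.coe_pair] at h
  exact le_trans h Finset.card_le_two

lemma finrank_Pl_eq {a b : Fin n → K} (ha : a ≠ 0) (hb : ∀ s : K, b ≠ s • a) :
    Module.finrank K (Pl a b) = 2 := by
  have hli : LinearIndependent K ![a, b] := by
    rw [LinearIndependent.pair_iff' ha]
    intro s hs
    exact hb s hs.symm
  have h := finrank_span_eq_card hli
  have hr : Set.range ![a, b] = {a, b} := by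
    ext x
    simp [Matrix.range_cons, Matrix.range_empty, or_comm]
  rw [hr] at h
  unfold Pl
  simpa using h

lemma plane_eq {a b c d : Fin n → K} (ha : a ≠ 0) (hb : ∀ s : K, b ≠ s • a)
    (h : Pl a b ≤ Pl c d) : Pl a b = Pl c d := by
  apply Submodule.eq_of_le_of_finrank_le h
  rw [finrank_Pl_eq ha hb]
  exact finrank_Pl_le c d

/-- Some basis vector is outside of the plane. -/
lemma exists_single_notMem (hn : 3 ≤ n) (a b : Fin n → K) :
    ∃ j : Fin n, (Pi.single j 1 : Fin n → K) ∉ Pl a b := by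
  by_contra hcon
  push Not at hcon
  have htop : Pl a b = ⊤ := by
    rw [eq_top_iff, ← (Pi.basisFun K (Fin n)).span_eq, Submodule.span_le]
    rintro x ⟨i, rfl⟩
    rw [Pi.basisFun_apply]
    exact hcon i
  have h1 := finrank_Pl_le a b
  rw [htop, finrank_top, Module.finrank_fin_fun] at h1
  omega

lemma InT_smul {H : Subgroup (GL (Fin n) K)} {v φ : Fin n → K} {c : K} :
    InT H (c • v) φ ↔ InT H v (c • φ) := by
  unfold InT
  rw [smul_vecMulVec, vecMulVec_smul]

lemma conj_val (g x : GL (Fin n) K) (v φ : Fin n → K)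
    (hx : (x.val : Matrix (Fin n) (Fin n) K) = 1 + vecMulVec v φ) :
    ((g * x * g⁻¹).val : Matrix (Fin n) (Fin n) K) =
      1 + vecMulVec (g.val *ᵥ v) (φ ᵥ* (g⁻¹).val) := by
  rw [Units.val_mul, Units.val_mul, hx, mul_add, add_mul, mul_one, ← Units.val_mul,
    mul_inv_cancel, Units.val_one, mul_vecMulVec, vecMulVec_mul]

lemma conj_InT {H : Subgroup (GL (Fin n) K)} {v φ : Fin n → K} {g : GL (Fin n) K} (hg : g ∈ H)
    (h : InT H v φ) : InT H (g.val *ᵥ v) (φ ᵥ* (g⁻¹).val) := by
  obtain ⟨x, hx, hxv⟩ := h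
  exact ⟨g * x * g⁻¹, H.mul_mem (H.mul_mem hg hx) (H.inv_mem hg), conj_val g x v φ hxv⟩

/-- Case A: all vectors of type 1. -/
lemma caseA (h : EBA) (hn : 3 ≤ n) (H : Subgroup (GL (Fin n) K))
    (hall : ∀ v : Fin n → K, v ≠ 0 → Ty1 H v) : False := by
  have h0 : ∀ v : Fin n → K, ∃ u : Fin n → K, v ≠ 0 → ((∀ a : K, u ≠ a • v) ∧
      (∀ φ, φ ⬝ᵥ v = 0 → φ ⬝ᵥ u = 0 → InT H v φ) ∧
      ∀ φ, (∀ t : K, InT H v (t • φ)) → φ ⬝ᵥ u = 0) := by
    intro v
    by_cases hv : v = 0
    · exact ⟨0, fun h => absurd hv h⟩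
    · obtain ⟨u, hu⟩ := hall v hv
      exact ⟨u, fun _ => hu⟩
  choose u hu using h0
  have h2 : ∀ v w : Fin n → K, v ≠ 0 → w ≠ 0 → w ∉ Pl v (u v) →
      ∃ x ∈ Pl w (u w), ∃ c : K, u v = x + c • v := by
    intro v w hv hw hwv
    have h3 : u v ∈ Pl w (u w) ⊔ Submodule.span K {v} := by
      apply dual_mem
      intro ψ hψ
      have e1 : ψ ⬝ᵥ w = 0 := hψ w (Submodule.mem_sup_left (left_mem _ _))
      have e2 : ψ ⬝ᵥ u w = 0 := hψ _ (Submodule.mem_sup_left (right_mem _ _))
      have e3 : ψ ⬝ᵥ v = 0 := hψ _ (Submodule.mem_sup_right (Submodule.mem_span_singleton_self v))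
      apply h H v w (u v) hv hw (hu v hv).2.1 (hu v hv).2.2 ?_ ψ e1 e3 ((hu w hw).2.1 ψ e1 e2)
      intro a b hab
      exact hwv (mem_Pl.2 ⟨a, b, hab.symm⟩)
    obtain ⟨x, hx, y, hy, hxy⟩ := Submodule.mem_sup.1 h3
    obtain ⟨c, hc⟩ := Submodule.mem_span_singleton.1 hy
    exact ⟨x, hx, c, by rw [hc, hxy]⟩
  have h3 : ∀ v w : Fin n → K, v ≠ 0 → w ≠ 0 → v ∈ Pl w (u w) → w ∈ Pl v (u v) := by
    intro v w hv hw hvw
    by_contra hcon
    obtain ⟨x, hx, c, hxc⟩ := h2 v w hv hw hcon
    have h4 : u v ∈ Pl w (u w) := by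
      rw [hxc]
      exact Submodule.add_mem _ hx (Submodule.smul_mem _ _ hvw)
    have h5 := plane_eq hv (hu v hv).1 (Pl_le hvw h4)
    rw [h5] at hcon
    exact hcon (left_mem _ _)
  have h4 : ∀ v w : Fin n → K, v ≠ 0 → w ≠ 0 → w ∈ Pl v (u v) → Pl w (u w) = Pl v (u v) := by
    intro v w hv hw hwv
    by_cases hc : ∃ c : K, w = c • v
    · obtain ⟨c, rfl⟩ := hc
      have h5 : u (c • v) ∈ Pl v (u v) := by
        apply dual_mem
        intro ψ hψ
        have e1 : ψ ⬝ᵥ v = 0 := hψ v (left_mem _ _)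
        have e2 : ψ ⬝ᵥ u v = 0 := hψ _ (right_mem _ _)
        apply (hu (c • v) hw).2.2
        intro t
        rw [InT_smul]
        apply (hu v hv).2.1
        · rw [smul_dotProduct, smul_dotProduct, e1, smul_zero, smul_zero]
        · rw [smul_dotProduct, smul_dotProduct, e2, smul_zero, smul_zero]
      exact plane_eq hw (hu _ hw).1 (Pl_le hwv h5)
    · push Not at hc
      have h5 := h3 w v hw hv hwv
      have h6 := plane_eq hv hc (Pl_le (left_mem v (u v)) hwv)
      have h7 := plane_eq hv hc (Pl_le h5 (left_mem w (u w)))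
      rw [← h6, ← h7]
  have hv0 : (Pi.single ⟨0, by omega⟩ 1 : Fin n → K) ≠ 0 := by
    intro h
    have := congrFun h ⟨0, by omega⟩
    simp at this
  set v : Fin n → K := Pi.single ⟨0, by omega⟩ 1 with hvdef
  obtain ⟨j, hj⟩ := exists_single_notMem hn v (u v)
  set w : Fin n → K := Pi.single j 1 with hw
  have hw0 : w ≠ 0 := by
    intro h
    exact hj (h ▸ Submodule.zero_mem _)
  obtain ⟨x, hx, c, hxc⟩ := h2 v w hv0 hw0 hj
  have hx0 : x ≠ 0 := by
    rintro rfl
    rw [zero_add] at hxc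
    exact (hu v hv0).1 c hxc
  have hxv : x ∈ Pl v (u v) := by
    have : x = u v - c • v := by rw [hxc]; simp
    rw [this]
    exact Submodule.sub_mem _ (right_mem _ _) (Submodule.smul_mem _ _ (left_mem _ _))
  have h5 := h4 v x hv0 hx0 hxv
  have h6 := h4 w x hw0 hx0 hx
  apply hj
  rw [← h5, h6]
  exact left_mem _ _

/-- If all vectors outside of a plane have type 0, the group contains SL. -/
lemma caseB2 (hS : SLG) (hn : 3 ≤ n) (H : Subgroup (GL (Fin n) K)) (a b : Fin n → K)
    (h0 : ∀ v : Fin n → K, v ∉ Pl a b → Ty0 H v) : SLle H := by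
  classical
  obtain ⟨j, hj⟩ := exists_single_notMem hn a b
  set φ : Fin n → K := fun i => if (Pi.single i 1 : Fin n → K) ∈ Pl a b then 1 else 0 with hφ
  have hφj : φ j = 0 := by
    rw [hφ]
    simp only
    rw [if_neg hj]
  have hφd : φ ⬝ᵥ (Pi.single j 1 : Fin n → K) = 0 := by
    rw [dotProduct_single, hφj, zero_mul]
  set N : Matrix (Fin n) (Fin n) K := vecMulVec (Pi.single j 1) φ with hN
  have hNN : N * N = 0 := by
    rw [hN, vecMulVec_mul_vecMulVec, hφd]
    simp
  let g : GL (Fin n) K := ⟨1 + N, 1 - N, by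
    rw [add_mul, one_mul, mul_sub, mul_one, hNN]
    simp, by
    rw [sub_mul, one_mul, mul_add, mul_one, hNN]
    simp⟩
  have hgv : (g.val : Matrix (Fin n) (Fin n) K) = 1 + N := rfl
  have hcol : ∀ i : Fin n, g.val *ᵥ (Pi.single i 1 : Fin n → K) =
      Pi.single i 1 + φ i • (Pi.single j 1 : Fin n → K) := by
    intro i
    rw [hgv, add_mulVec, one_mulVec, hN, vecMulVec_mulVec, dotProduct_single, mul_one]
    congr 1
    funext l
    simp [mul_comm]
  have hout : ∀ i : Fin n, g.val *ᵥ (Pi.single i 1 : Fin n → K) ∉ Pl a b := by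
    intro i
    rw [hcol i]
    by_cases hi : (Pi.single i 1 : Fin n → K) ∈ Pl a b
    · have : φ i = 1 := by
        rw [hφ]
        simp only
        rw [if_pos hi]
      rw [this, one_smul]
      intro hcon
      apply hj
      have h1 := Submodule.sub_mem _ hcon hi
      rwa [add_sub_cancel_left] at h1
    · have : φ i = 0 := by
        rw [hφ]
        simp only
        rw [if_neg hi]
      rw [this, zero_smul, add_zero]
      exact hi
  have hL : ∀ (i l : Fin n) (t : K), i ≠ l → InL (cj g H) i l t := by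
    intro i l t hil
    -- the functional
    have h1 : InT H (g.val *ᵥ (Pi.single i 1 : Fin n → K))
        ((Pi.single l t : Fin n → K) ᵥ* (g⁻¹).val) := by
      apply h0 _ (hout i)
      rw [dotProduct_mulVec, vecMul_vecMul, ← Units.val_mul, inv_mul_cancel, Units.val_one,
        vecMul_one, dotProduct_single, Pi.single_eq_of_ne hil, zero_mul]
    obtain ⟨y, hy, hyv⟩ := h1
    refine ⟨g⁻¹ * y * g, ?_, ?_⟩
    · rw [mem_cj]
      have : g * (g⁻¹ * y * g) * g⁻¹ = y := by group
      rwa [this]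
    · have h2 : (transvection i l t : Matrix (Fin n) (Fin n) K) =
          1 + vecMulVec (Pi.single i 1) (Pi.single l t) := by
        unfold transvection
        congr 1
        ext p q
        rw [vecMulVec_apply, Matrix.single_apply, Pi.single_apply, Pi.single_apply]
        by_cases hp : i = p
        · by_cases hq : l = q
          · simp [hp, hq]
          · simp [hp, hq, Ne.symm hq]
        · simp [hp, Ne.symm hp]
      have h3 := conj_val g⁻¹ y _ _ hyv
      rw [inv_inv, mulVec_mulVec, vecMul_vecMul, ← Units.val_mul, inv_mul_cancel,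
        Units.val_one, one_mulVec, vecMul_one] at h3
      rw [h2]
      exact h3
  have hSL := hS (cj g H) hL
  intro y hy
  have h4 : g⁻¹ * y * g ∈ cj g H := by
    apply hSL
    rw [Units.val_mul, Units.val_mul, det_mul, det_mul, hy, mul_one, ← det_mul,
      ← Units.val_mul, inv_mul_cancel, Units.val_one, det_one]
  rw [mem_cj] at h4
  have : g * (g⁻¹ * y * g) * g⁻¹ = y := by group
  rwa [this] at h4

/-- Row EBB. -/
theorem pf_EBB (h : EBA) (hS : SLG) (_hT : TYV) : EBB := by
  intro K _ _ k hk H hall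
  have hn : 3 ≤ k + 2 := by omega
  -- vectors of type 0 are in the planes of the vectors of type 1
  have hi : ∀ v w u : Fin (k + 2) → K, v ≠ 0 → w ≠ 0 → (∀ a : K, u ≠ a • v) →
      (∀ φ, φ ⬝ᵥ v = 0 → φ ⬝ᵥ u = 0 → InT H v φ) →
      (∀ φ, (∀ t : K, InT H v (t • φ)) → φ ⬝ᵥ u = 0) → Ty0 H w → w ∈ Pl v u := by
    intro v w u hv hw hu1 hu2 hu3 hw0
    by_contra hcon
    have h1 : ∀ a b : K, w ≠ a • v + b • u := by
      intro a b hab
      exact hcon (mem_Pl.2 ⟨a, b, hab.symm⟩)
    have h2 : u ∈ Pl v w := by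
      apply dual_mem
      intro ψ hψ
      exact h H v w u hv hw hu2 hu3 h1 ψ (hψ w (right_mem _ _)) (hψ v (left_mem _ _))
        (hw0 ψ (hψ w (right_mem _ _)))
    obtain ⟨s, t, hst⟩ := mem_Pl.1 h2
    by_cases ht : t = 0
    · rw [ht, zero_smul, add_zero] at hst
      exact hu1 s hst.symm
    · apply h1 (-(t⁻¹ * s)) t⁻¹
      rw [← hst, smul_add, smul_smul, smul_smul, inv_mul_cancel₀ ht, one_smul, neg_smul,
        neg_add_cancel_left]
  by_cases hex : ∃ u : Fin (k + 2) → K, u ≠ 0 ∧ Ty0 H u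
  · obtain ⟨u, hu0, hu⟩ := hex
    by_cases hex2 : ∃ u' : Fin (k + 2) → K, (∀ s : K, u' ≠ s • u) ∧ Ty0 H u'
    · obtain ⟨u', hu'1, hu'⟩ := hex2
      left
      have hu'0 : u' ≠ 0 := by
        intro h
        apply hu'1 0
        rw [zero_smul, h]
      apply caseB2 hS hn H u u'
      intro v hv
      have hv0 : v ≠ 0 := by
        rintro rfl
        exact hv (Submodule.zero_mem _)
      rcases hall v hv0 with h0 | ⟨x, hx1, hx2, hx3⟩
      · exact h0
      · exfalso
        have e1 := hi v u x hv0 hu0 hx1 hx2 hx3 hu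
        have e2 := hi v u' x hv0 hu'0 hx1 hx2 hx3 hu'
        have e3 := plane_eq hu0 hu'1 (Pl_le e1 e2)
        apply hv
        rw [e3]
        exact left_mem _ _
    · right
      push Not at hex2
      refine ⟨u, hu0, ?_⟩
      intro g hg
      rw [mem_Pv]
      by_contra hcon
      push Not at hcon
      apply hex2 _ hcon
      intro φ hφ
      have h1 : (φ ᵥ* (g.val : Matrix (Fin (k + 2)) (Fin (k + 2)) K)) ⬝ᵥ u = 0 := by
        rw [← dotProduct_mulVec]
        exact hφ
      have h2 := conj_InT hg (hu _ h1)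
      rw [vecMul_vecMul, ← Units.val_mul, mul_inv_cancel, Units.val_one, vecMul_one] at h2
      exact h2
  · exfalso
    push Not at hex
    apply caseA h hn H
    intro v hv
    rcases hall v hv with h0 | h1
    · exact absurd h0 (hex v hv)
    · exact h1

end Pool.Agent.H37.BCP
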