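import Pool.Agent.H77.BC.Targets

/-!
# Row TRX: the field and the map from SL are definable
-/

set_option autoImplicit false

open Set Matrix

namespace Pool.Agent.H37.BCP

open Pool.Agent.H77.BC

section graph

variable {M : Type} {U : RU M} {K Γ : Type} [Field K] [Cod M K] [DF U K] [Group Γ] [Cod M Γ]
  [DG U Γ] {m : ℕ}


/-- Elementary matrices are definable functions. -/
lemma DFn_trans (i j : Fin (m + 2)) (c : K) :
    DFn U (fun t : K => (transvection i j (c * t) : Matrix (Fin (m + 2)) (Fin (m + 2)) K)) := by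
  refine DFn_mat fun a b => ?_
  have h : (fun t : K => (transvection i j (c * t) : Matrix (Fin (m + 2)) (Fin (m + 2)) K) a b) =
      fun t : K => (1 : Matrix (Fin (m + 2)) (Fin (m + 2)) K) a b +
        (if i = a ∧ j = b then c else 0) * t := by
    funext t
    unfold transvection
    rw [Matrix.add_apply, single_apply]
    by_cases hab : i = a ∧ j = b
    · rw [if_pos hab, if_pos hab]
    · rw [if_neg hab, if_neg hab, zero_mul]
  rw [h]
  exact DFn_add (DFn_const _) (DFn_mul (DFn_const _) DFn_id)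

/-- The sets `P n`. -/
def PP (T : Set (SpecialLinearGroup (Fin (m + 2)) K × Γ)) : ℕ → Set (SpecialLinearGroup (Fin (m + 2)) K × Γ)
  | 0 => {((1 : SpecialLinearGroup (Fin (m + 2)) K), (1 : Γ))}
  | n + 1 => {q | ∃ z : (SpecialLinearGroup (Fin (m + 2)) K × Γ) × (SpecialLinearGroup (Fin (m + 2)) K × Γ),
      (z.1 ∈ T ∨ z.1 = ((1 : SpecialLinearGroup (Fin (m + 2)) K), (1 : Γ))) ∧ z.2 ∈ PP T n ∧
        q = (z.1.1 * z.2.1, z.1.2 * z.2.2)}

lemma D_PP (T : Set (SpecialLinearGroup (Fin (m + 2)) K × Γ)) (hT : U.D T) (n : ℕ) : U.D (PP T n) := by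
  induction n with
  | zero => exact D_singleton _
  | succ n ih =>
    have h1 : U.D {z : (SpecialLinearGroup (Fin (m + 2)) K × Γ) × ((SpecialLinearGroup (Fin (m + 2)) K × Γ) × (SpecialLinearGroup (Fin (m + 2)) K × Γ)) | z.2.1 ∈ T ∨
        z.2.1 = ((1 : SpecialLinearGroup (Fin (m + 2)) K), (1 : Γ))} :=
      D_or (D_subst (p := fun x : SpecialLinearGroup (Fin (m + 2)) K × Γ => x ∈ T) hT (DFn_comp DFn_fst DFn_snd))
        (D_eqf (DFn_comp DFn_fst DFn_snd) (DFn_const _))
    have h2 : U.D {z : (SpecialLinearGroup (Fin (m + 2)) K × Γ) × ((SpecialLinearGroup (Fin (m + 2)) K × Γ) × (SpecialLinearGroup (Fin (m + 2)) K × Γ)) | z.2.2 ∈ PP T n} :=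
      D_subst (p := fun x : SpecialLinearGroup (Fin (m + 2)) K × Γ => x ∈ PP T n) ih (DFn_comp DFn_snd DFn_snd)
    have h3 : DFn U (fun z : (SpecialLinearGroup (Fin (m + 2)) K × Γ) × ((SpecialLinearGroup (Fin (m + 2)) K × Γ) × (SpecialLinearGroup (Fin (m + 2)) K × Γ)) => z.2.1) :=
      DFn_comp DFn_fst DFn_snd
    have h4 : DFn U (fun z : (SpecialLinearGroup (Fin (m + 2)) K × Γ) × ((SpecialLinearGroup (Fin (m + 2)) K × Γ) × (SpecialLinearGroup (Fin (m + 2)) K × Γ)) => z.2.2) :=
      DFn_comp DFn_snd DFn_snd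
    have h5 : U.D {z : (SpecialLinearGroup (Fin (m + 2)) K × Γ) × ((SpecialLinearGroup (Fin (m + 2)) K × Γ) × (SpecialLinearGroup (Fin (m + 2)) K × Γ)) |
        z.1 = (z.2.1.1 * z.2.2.1, z.2.1.2 * z.2.2.2)} :=
      D_eqf DFn_fst (DFn_pair (DFn_gmul (DFn_comp DFn_fst h3) (DFn_comp DFn_fst h4))
        (DFn_gmul (DFn_comp DFn_snd h3) (DFn_comp DFn_snd h4)))
    exact D_exists (p := fun (q : SpecialLinearGroup (Fin (m + 2)) K × Γ) (z : (SpecialLinearGroup (Fin (m + 2)) K × Γ) × (SpecialLinearGroup (Fin (m + 2)) K × Γ)) =>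
      (z.1 ∈ T ∨ z.1 = ((1 : SpecialLinearGroup (Fin (m + 2)) K), (1 : Γ))) ∧ z.2 ∈ PP T n ∧
        q = (z.1.1 * z.2.1, z.1.2 * z.2.2)) (D_and h1 (D_and h2 h5))

lemma PP_graph (π : SpecialLinearGroup (Fin (m + 2)) K →* Γ) (T : Set (SpecialLinearGroup (Fin (m + 2)) K × Γ)) (hT : ∀ q ∈ T, q.2 = π q.1) (n : ℕ) :
    ∀ q ∈ PP T n, q.2 = π q.1 := by
  induction n with
  | zero =>
    intro q hq
    have hq' : q = ((1 : SpecialLinearGroup (Fin (m + 2)) K), (1 : Γ)) := hq
    rw [hq']
    simp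
  | succ n ih =>
    rintro q ⟨z, hz1, hz2, rfl⟩
    have h1 : z.1.2 = π z.1.1 := by
      rcases hz1 with h | h
      · exact hT _ h
      · rw [h]
        simp
    simp only
    rw [h1, ih _ hz2, map_mul]

lemma one_mem_PP (T : Set (SpecialLinearGroup (Fin (m + 2)) K × Γ)) (n : ℕ) : ((1 : SpecialLinearGroup (Fin (m + 2)) K), (1 : Γ)) ∈ PP T n := by
  induction n with
  | zero => exact rfl
  | succ n ih =>
    refine ⟨(((1 : SpecialLinearGroup (Fin (m + 2)) K), (1 : Γ)), ((1 : SpecialLinearGroup (Fin (m + 2)) K), (1 : Γ))), Or.inr rfl, ih, ?_⟩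
    simp

lemma mem_PP (π : SpecialLinearGroup (Fin (m + 2)) K →* Γ) (T : Set (SpecialLinearGroup (Fin (m + 2)) K × Γ))
    (hT : ∀ (x : TransvectionStruct (Fin (m + 2)) K) (A : SpecialLinearGroup (Fin (m + 2)) K), A.val = x.toMatrix →
      (A, π A) ∈ T) (n : ℕ) :
    ∀ (L : List (TransvectionStruct (Fin (m + 2)) K)), L.length ≤ n → ∀ A : SpecialLinearGroup (Fin (m + 2)) K,
      (L.map TransvectionStruct.toMatrix).prod = A.val → (A, π A) ∈ PP T n := by
  induction n with
  | zero =>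
    intro L hL A hA
    have hL0 : L = [] := List.length_eq_zero_iff.1 (by omega)
    subst hL0
    have hA1 : A = 1 := by
      apply Subtype.ext
      rw [← hA]
      simp
    rw [hA1, map_one]
    exact one_mem_PP T 0
  | succ n ih =>
    intro L hL A hA
    cases L with
    | nil =>
      have hA1 : A = 1 := by
        apply Subtype.ext
        rw [← hA]
        simp
      rw [hA1, map_one]
      exact one_mem_PP T (n + 1)
    | cons x L =>
      have hL' : L.length ≤ n := by
        simp only [List.length_cons] at hL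
        omega
      have hdet : ∀ L : List (TransvectionStruct (Fin (m + 2)) K),
          ((L.map TransvectionStruct.toMatrix).prod).det = 1 := by
        intro L
        exact TransvectionStruct.det_toMatrix_prod L
      have hdx : (x.toMatrix : Matrix (Fin (m + 2)) (Fin (m + 2)) K).det = 1 :=
        TransvectionStruct.det x
      set X : SpecialLinearGroup (Fin (m + 2)) K := ⟨x.toMatrix, hdx⟩ with hX
      set A' : SpecialLinearGroup (Fin (m + 2)) K := ⟨(L.map TransvectionStruct.toMatrix).prod, hdet L⟩ with hA'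
      have h1 : A = X * A' := by
        apply Subtype.ext
        rw [← hA]
        simp [hX, hA']
      refine ⟨((X, π X), (A', π A')), Or.inl (hT x X rfl), ih L hL' A' rfl, ?_⟩
      simp only
      rw [h1, map_mul]

end graph

/-- Row TRX. -/
theorem pf_TRX (hA : TRA) (hB : TRB) (hC : TRC) (hG : BGN) : TRX := by
  intro G S _ _ U hPG K _ _ m π hsurj hker
  have hfG : Ful U G := hPG.ful
  have hdG : DG U G := hPG.dg
  obtain ⟨hinj, hcent⟩ := hA m π hsurj hker
  have hBm := hB m π hsurj hker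
  set j : K → G := fun t => π (sx t) with hj
  let cK : Cod (G ⊕ S) K := ⟨Unit, inferInstance, fun t _ => Sum.inl (j t), fun s t h =>
    hinj (Sum.inl_injective (congrFun h ()))⟩
  let _ := cK
  -- the image of the root group
  have hroot : U.D {g : G | ∃ t : K, g = j t} := by
    have h1 : U.D {g : G | ∀ h : G, h * π (sx 1) = π (sx 1) * h → g * h = h * g} := by
      refine D_forall (p := fun g h : G => h * π (sx 1) = π (sx 1) * h → g * h = h * g) ?_
      exact D_imp (D_eqf (DFn_gmul DFn_snd (DFn_const _)) (DFn_gmul (DFn_const _) DFn_snd))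
        (D_eqf (DFn_gmul DFn_fst DFn_snd) (DFn_gmul DFn_snd DFn_fst))
    have e : {g : G | ∃ t : K, g = j t} =
        {g : G | ∀ h : G, h * π (sx 1) = π (sx 1) * h → g * h = h * g} := by
      ext g
      exact (hcent g).symm
    rwa [e]
  have hfK : Ful U K := ⟨by
    unfold RU.D at hroot ⊢
    have e : Cod.c (M := G ⊕ S) '' (univ : Set K) =
        Cod.c (M := G ⊕ S) '' {g : G | ∃ t : K, g = j t} := by
      ext x
      constructor
      · rintro ⟨t, -, rfl⟩
        exact ⟨j t, ⟨t, rfl⟩, rfl⟩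
      · rintro ⟨g, ⟨t, rfl⟩, rfl⟩
        exact ⟨t, mem_univ _, rfl⟩
    rw [e]
    exact hroot⟩
  have hjd : DFn U (fun t : K => j t) :=
    DFn_of_code (M := G ⊕ S) (v := fun t : K => j t) id (fun _ => rfl)
  have hjadd : ∀ s t : K, j (s + t) = j s * j t := by
    intro s t
    rw [hj]
    simp only
    rw [← map_mul]
    have h : (sx (s + t) : SpecialLinearGroup (Fin (m + 2)) K) = sx s * sx t := by
      apply Subtype.ext
      have h1 := transvection_mul_transvection_same (n := Fin (m + 2)) (R := K) 0 1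
        (by simp) s t
      exact h1.symm
    rw [h]
  have hadd : DFn U (fun p : K × K => p.1 + p.2) := by
    unfold DFn
    have h1 : U.D {p : (K × K) × K | j p.2 = j p.1.1 * j p.1.2} :=
      D_eqf (DFn_comp hjd DFn_snd) (DFn_gmul (DFn_comp hjd (DFn_comp DFn_fst DFn_fst))
        (DFn_comp hjd (DFn_comp DFn_snd DFn_fst)))
    have e : {p : (K × K) × K | p.2 = p.1.1 + p.1.2} =
        {p : (K × K) × K | j p.2 = j p.1.1 * j p.1.2} := by
      ext p
      constructor
      · intro h
        have h' : p.2 = p.1.1 + p.1.2 := h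
        change j p.2 = j p.1.1 * j p.1.2
        rw [h', hjadd]
      · intro h
        have h' : j p.2 = j p.1.1 * j p.1.2 := h
        rw [← hjadd] at h'
        exact hinj h'
    rwa [e]
  have hmul : DFn U (fun p : K × K => p.1 * p.2) := by
    unfold DFn
    have h11 : DFn U (fun p : (K × K) × K => p.1.1) := DFn_comp DFn_fst DFn_fst
    have h12 : DFn U (fun p : (K × K) × K => p.1.2) := DFn_comp DFn_snd DFn_fst
    have h2 : DFn U (fun p : (K × K) × K => p.2) := DFn_snd
    have k1 : DFn U (fun z : ((K × K) × K) × G => j z.1.1.1) :=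
      DFn_comp (f := fun z : ((K × K) × K) × G => z.1.1.1) hjd
        (DFn_comp (f := fun z : ((K × K) × K) × G => z.1)
          (g := fun p : (K × K) × K => p.1.1) h11 DFn_fst)
    have k2 : DFn U (fun z : ((K × K) × K) × G => j z.1.1.2) :=
      DFn_comp (f := fun z : ((K × K) × K) × G => z.1.1.2) hjd
        (DFn_comp (f := fun z : ((K × K) × K) × G => z.1)
          (g := fun p : (K × K) × K => p.1.2) h12 DFn_fst)
    have k3 : DFn U (fun z : ((K × K) × K) × G => j z.1.2) :=
      DFn_comp (f := fun z : ((K × K) × K) × G => z.1.2) hjd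
        (DFn_comp (f := fun z : ((K × K) × K) × G => z.1)
          (g := fun p : (K × K) × K => p.2) h2 DFn_fst)
    have h3 : U.D {p : (K × K) × K | ∃ h : G, h * π (sx 1) * h⁻¹ = j p.1.1 ∧
        h * j p.1.2 * h⁻¹ = j p.2} := by
      refine D_exists (p := fun (p : (K × K) × K) (h : G) => h * π (sx 1) * h⁻¹ = j p.1.1 ∧
        h * j p.1.2 * h⁻¹ = j p.2) ?_
      exact D_and
        (D_eqf (DFn_gmul (DFn_gmul DFn_snd (DFn_const _)) (DFn_ginv DFn_snd)) k1)
        (D_eqf (DFn_gmul (DFn_gmul DFn_snd k2) (DFn_ginv DFn_snd)) k3)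
    have h4 : U.D {p : (K × K) × K | (p.1.1 = 0 ∧ p.2 = 0) ∨ (¬ p.1.1 = 0 ∧
        ∃ h : G, h * π (sx 1) * h⁻¹ = j p.1.1 ∧ h * j p.1.2 * h⁻¹ = j p.2)} :=
      D_or (D_and (D_eqf h11 (DFn_const _)) (D_eqf h2 (DFn_const _)))
        (D_and (D_not (D_eqf h11 (DFn_const _))) h3)
    have e : {p : (K × K) × K | p.2 = p.1.1 * p.1.2} =
        {p : (K × K) × K | (p.1.1 = 0 ∧ p.2 = 0) ∨ (¬ p.1.1 = 0 ∧
        ∃ h : G, h * π (sx 1) * h⁻¹ = j p.1.1 ∧ h * j p.1.2 * h⁻¹ = j p.2)} := by
      ext p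
      by_cases h0 : p.1.1 = 0
      · constructor
        · intro h
          have h' : p.2 = p.1.1 * p.1.2 := h
          rw [h0, zero_mul] at h'
          exact Or.inl ⟨h0, h'⟩
        · rintro (⟨-, h⟩ | ⟨h, -⟩)
          · change p.2 = p.1.1 * p.1.2
            rw [h0, zero_mul, h]
          · exact absurd h0 h
      · constructor
        · intro h
          exact Or.inr ⟨h0, (hBm p.1.1 p.1.2 p.2 h0).2 h⟩
        · rintro (⟨h, -⟩ | ⟨-, h⟩)
          · exact absurd h h0
          · exact (hBm p.1.1 p.1.2 p.2 h0).1 h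
    rwa [e]
  have hDF : DF U K := { toFul := hfK, add := hadd, mul := hmul }
  refine ⟨cK, hDF, ?_⟩
  obtain ⟨N, hN⟩ := hG K (m + 2)
  -- the elementary matrices
  have hTij : ∀ ij : {p : Fin (m + 2) × Fin (m + 2) // p.1 ≠ p.2},
      ∃ T : Set (SpecialLinearGroup (Fin (m + 2)) K × G), U.D T ∧ (∀ q ∈ T, q.2 = π q.1) ∧
        ∀ (t : K) (A : SpecialLinearGroup (Fin (m + 2)) K),
          A.val = transvection ij.1.1 ij.1.2 t → (A, π A) ∈ T := by
    rintro ⟨⟨i, l⟩, hil⟩
    obtain ⟨w, c, hc, hw⟩ := hC (K := K) m i l hil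
    refine ⟨{q | ∃ t : K, (q.1.val : Matrix _ _ K) = transvection i l (c * t) ∧
      q.2 = π w * j t * (π w)⁻¹}, ?_, ?_, ?_⟩
    · refine D_exists (p := fun (q : SpecialLinearGroup (Fin (m + 2)) K × G) (t : K) =>
        (q.1.val : Matrix _ _ K) = transvection i l (c * t) ∧ q.2 = π w * j t * (π w)⁻¹) ?_
      have h1 : DFn U (fun z : (SpecialLinearGroup (Fin (m + 2)) K × G) × K =>
          (transvection i l (c * z.2) : Matrix (Fin (m + 2)) (Fin (m + 2)) K)) :=
        DFn_comp (f := fun z : (SpecialLinearGroup (Fin (m + 2)) K × G) × K => z.2)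
          (g := fun t : K => (transvection i l (c * t) : Matrix (Fin (m + 2)) (Fin (m + 2)) K))
          (DFn_trans i l c) DFn_snd
      refine D_and (D_eqf (DFn_comp DFn_sval (DFn_comp DFn_fst DFn_fst)) h1) ?_
      exact D_eqf (DFn_comp DFn_snd DFn_fst)
        (DFn_gmul (DFn_gmul (DFn_const _) (DFn_comp hjd DFn_snd)) (DFn_const _))
    · rintro q ⟨t, h1, h2⟩
      rw [h2]
      have h3 : q.1 = w * sx t * w⁻¹ := by
        apply Subtype.ext
        rw [h1]
        exact (hw t).symm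
      rw [h3, map_mul, map_mul, map_inv]
    · intro t A hAt
      refine ⟨c⁻¹ * t, ?_, ?_⟩
      · simp only
        rw [← mul_assoc, mul_inv_cancel₀ hc, one_mul]
        exact hAt
      · have h3 : A = w * sx (c⁻¹ * t) * w⁻¹ := by
          apply Subtype.ext
          rw [hAt]
          have h4 := hw (c⁻¹ * t)
          rw [← mul_assoc, mul_inv_cancel₀ hc, one_mul] at h4
          exact h4.symm
        simp only
        rw [h3, map_mul, map_mul, map_inv]
  choose T hTD hTg hTm using hTij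
  set T' : Set (SpecialLinearGroup (Fin (m + 2)) K × G) := {q | ¬ ∀ ij, ¬ q ∈ T ij} with hT'
  have hT'D : U.D T' := D_not (D_forall_fin fun ij => D_not (hTD ij))
  have hT'g : ∀ q ∈ T', q.2 = π q.1 := by
    intro q hq
    have h1 : ¬ ∀ ij, ¬ q ∈ T ij := hq
    push Not at h1
    obtain ⟨ij, hij⟩ := h1
    exact hTg ij q hij
  have hT'm : ∀ (x : TransvectionStruct (Fin (m + 2)) K) (A : SpecialLinearGroup (Fin (m + 2)) K),
      A.val = x.toMatrix → (A, π A) ∈ T' := by
    intro x A hx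
    change ¬ ∀ ij, ¬ (A, π A) ∈ T ij
    push Not
    exact ⟨⟨(x.i, x.j), x.hij⟩, hTm _ x.c A hx⟩
  have hfin : U.D (PP (m := m) T' N) := D_PP T' hT'D N
  unfold DFn
  have e : {p : SpecialLinearGroup (Fin (m + 2)) K × G | p.2 = π p.1} = PP (m := m) T' N := by
    ext p
    constructor
    · intro hp
      have hp' : p.2 = π p.1 := hp
      obtain ⟨L, hL, hLA⟩ := hN p.1.val p.1.2
      have h1 := mem_PP π T' hT'm N L hL p.1 hLA
      rw [← hp'] at h1
      exact h1
    · intro hp
      exact PP_graph π T' hT'g N p hp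
  rw [e]
  exact hfin

end Pool.Agent.H37.BCP
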